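import Pool.Agent.Lib.helper15.SemiZ

set_option autoImplicit false

open Pool.Agent.Lib.helper15 SemiZ Set

namespace Pool.Agent.Results.MP_b73301_gt.Counter

/-- The set `S_{≤ n}`. -/
def Sle (S : Type) [Semigroup S] (n : ℕ) : Set S :=
  {f | ({f} : Set S).centralizer.centralizer.encard ≤ n}

theorem result : ∃ (G : Type) (_ : Group G), FiniteDoubleCentralizers G ∧
    ¬@IsClosed G (semiZariski G) (Sle G 2) ∧ ¬SigmaDiscrete G (Sle G 2) := by
  obtain ⟨G, _, I, _, x, hx, h1, h2, h3, h4⟩ := Fdc.exists_group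
  have h5 : {i | x i ∉ Sle G 2}.Countable := by
    refine Set.Countable.mono ?_ h4
    refine fun i hi c => hi ((encard_le_encard c).trans ((encard_insert_le _ _).trans ?_))
    rw [encard_singleton]; rfl
  refine ⟨G, inferInstance, h1, fun hc => ?_, not_sigma hx h2 h5⟩
  have nc : ∀ s : Set I, s.Countable → ∃ i, i ∉ s := fun s hs => by_contra fun c =>
    not_countable_univ (hs.mono fun i _ => by_contra fun d => c ⟨i, d⟩)
  obtain ⟨i, hi⟩ := nc {i | x i = 1} (Set.Subsingleton.countable fun _ a _ b => hx (a.trans b.symm))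
  obtain ⟨j, hj⟩ := nc _ (h2 (x i) (x i) hi)
  have g2 : x i * x j * (x i * x j) ≠ 1 := fun e => hj <| by
    have := eq_inv_of_mul_eq_one_left e
    rwa [mul_inv_rev, inv_eq_of_mul_eq_one_right (h3 i), inv_eq_of_mul_eq_one_right (h3 j)] at this
  set g := x i * x j
  have g1 : g ≠ 1 := fun e => g2 (by simp [e])
  have : g ∉ Sle G 2 := fun h => by
    have s : ({1, g, g * g} : Set G) ⊆ ({g} : Set G).centralizer.centralizer := by
      rintro _ (rfl | rfl | rfl) y hy
      · simp
      · exact (hy _ rfl).symm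
      · exact (Commute.mul_left (hy _ rfl) (hy _ rfl)).symm
    have := (encard_le_encard s).trans h
    rw [encard_eq_three.2 ⟨_, _, _, g1.symm, g2.symm, by simpa using g1, rfl⟩] at this
    norm_num at this
  obtain ⟨k, hk⟩ := nc _ ((cocount hx h2 (@IsClosed.isOpen_compl _ (semiZariski G) _ hc)
    ⟨g, this⟩).union h5)
  exact hk (em' _)

end Pool.Agent.Results.MP_b73301_gt.Counter
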